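import Pool.Agent.N519.QU.BLa

/-!
# QU/BL, second part: the blocks (helper519)
-/

set_option autoImplicit false

namespace Pool.Agent.N519.QU

open Finset Pool.Agent.N728.QL Pool.Agent.N728.QG Pool.Agent.N728.QU

noncomputable section

/-- the upper bound for fixed `z`, `B`, `c` -/
def UpH (C : ℝ) (z B : ℕ) (c : ℤ) : Prop := ∀ σ : ℤ, (σ = 1 ∨ σ = -1) → ∀ X1 X2 I1 I2 : ℕ, X1 ≤ X2 →
    B ≤ (X2 - X1) ^ 2 → X2 ≤ B ^ 2 → I1 ≤ I2 → B ≤ (I2 - I1) ^ 2 → I2 ≤ B ^ 2 →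
    ∑ u ∈ Ioc X1 X2, ∑ v ∈ Ioc I1 I2, |Eu σ c z B ((u * v : ℕ) : ℤ)| ≤
      C * (((X2 : ℝ) - X1) * ((I2 : ℝ) - I1))

theorem blkUp {C : ℝ} {z B : ℕ} {c : ℤ} (hup : UpH C z B c)
    {σ a : ℤ} (hσ : σ = 1 ∨ σ = -1) {P L X1 X2 : ℕ} (hX : X1 ≤ X2) (hXL : L ≤ X2 - X1)
    (hBL : B ≤ L ^ 2) (hB2 : X2 + 2 * (P + L) ≤ B ^ 2) (hm : a = 1 ∨ (a = -1 ∧ X2 ≤ 2 * P)) :
    ∑ h ∈ Ioc P (P + L), ∑ u ∈ Ioc X1 X2, |gg a σ c z B h u| ≤
      C * (((X2 : ℝ) - X1) * ((X2 : ℝ) - X1 + 2 * L)) := by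
  have hBX : B ≤ (X2 - X1) ^ 2 := hBL.trans (Nat.pow_le_pow_left hXL 2)
  rcases hm with rfl | ⟨rfl, hm⟩
  · have h1 := blk (F := fun n => |Eu σ c z B n|) (fun n => abs_nonneg _) 1 P L X1 X2
      (2 * P + X1) (2 * (P + L) + X2) (by
        intro u hu h hh
        rw [mem_Ioc] at hu hh
        push_cast
        omega)
    have h2 := hup σ hσ X1 X2 (2 * P + X1) (2 * (P + L) + X2) hX hBX (by omega) (by omega)
      (hBL.trans (Nat.pow_le_pow_left (by omega) 2)) (by omega)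
    refine (h1.trans h2).trans (le_of_eq ?_)
    push_cast
    ring
  · have h1 := blk (F := fun n => |Eu σ c z B n|) (fun n => abs_nonneg _) (-1) P L X1 X2
      (2 * P - X2) (2 * (P + L) - X1) (by
        intro u hu h hh
        rw [mem_Ioc] at hu hh
        push_cast
        omega)
    have h2 := hup σ hσ X1 X2 (2 * P - X2) (2 * (P + L) - X1) hX hBX (by omega) (by omega)
      (hBL.trans (Nat.pow_le_pow_left (by omega) 2)) (by omega)
    refine (h1.trans h2).trans (le_of_eq ?_)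
    rw [Nat.cast_sub hm, Nat.cast_sub (by omega)]
    push_cast
    ring

/-- the mean value theorem for fixed `z`, `B`, `c` -/
def MCH (K' : ℕ) (ε1 δ : ℝ) (z B : ℕ) (c a : ℤ) : Prop := ∀ (T : ℕ) (σ : ℤ), (σ = 1 ∨ σ = -1) →
  (B : ℝ) ≤ (T : ℝ) * Real.log B → T ≤ K' * B → Rge (Polynomial.C a * Polynomial.X) K' B T →
  ∑ b ∈ (Ioc B (4 * B)).filter (fun b : ℕ => (1 + δ) * (B : ℝ) ≤ (b : ℝ)),
    |∑ t ∈ Icc 1 T, Eu σ c z B ((t : ℤ) * (a * t + b))| ≤ ε1 * ((B : ℝ) * T)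

theorem mainb {C ε1 δ : ℝ} {K' z B : ℕ} {c : ℤ} (hε1 : 0 ≤ ε1)
    (hup : UpH C z B c) {a : ℤ} (hMC : MCH K' ε1 δ z B c a)
    {σ : ℤ} (hσ : σ = 1 ∨ σ = -1) (ha : a = 1 ∨ a = -1) {P L T : ℕ}
    (hBL : B ≤ L ^ 2) (hB2 : L + 2 * (P + L) ≤ B ^ 2) (hL2 : L ≤ 2 * P)
    (hδ : (1 + δ) * (B : ℝ) ≤ 2 * P) (hBP : B ≤ 2 * P) (hPB : 2 * (P + L) ≤ 4 * B)
    (hlog : (B : ℝ) ≤ (L : ℝ) * Real.log B) (hT : T ≤ K' * B)
    (hR : Rge (Polynomial.C a * Polynomial.X) K' B T) (hC : 0 ≤ C) :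
    ∑ h ∈ Ioc P (P + L), |∑ t ∈ Icc 1 T, gg a σ c z B h t| ≤
      3 * C * (L : ℝ) ^ 2 + ε1 * K' * (B : ℝ) ^ 2 := by
  rcases le_or_gt T L with hTL | hTL
  · have h1 := blkUp hup (a := a) hσ (X1 := 0) (X2 := L) (Nat.zero_le _) (by omega) hBL hB2 (by
      rcases ha with h | h
      · exact Or.inl h
      · exact Or.inr ⟨h, hL2⟩)
    have h2 : ∑ h ∈ Ioc P (P + L), |∑ t ∈ Icc 1 T, gg a σ c z B h t| ≤
        ∑ h ∈ Ioc P (P + L), ∑ u ∈ Ioc 0 L, |gg a σ c z B h u| := by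
      refine Finset.sum_le_sum fun h _ => ?_
      refine (Finset.abs_sum_le_sum_abs _ _).trans ?_
      refine Finset.sum_le_sum_of_subset_of_nonneg ?_ fun _ _ _ => abs_nonneg _
      intro t ht
      rw [mem_Icc] at ht
      rw [mem_Ioc]
      omega
    have h3 : 0 ≤ ε1 * K' * (B : ℝ) ^ 2 := by positivity
    push_cast at h1
    nlinarith
  · have hTL' : (L : ℝ) ≤ T := by exact_mod_cast hTL.le
    have hB1 : 0 ≤ Real.log B := Real.log_natCast_nonneg B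
    have h1 := hMC T σ hσ (hlog.trans (mul_le_mul_of_nonneg_right hTL' hB1)) hT hR
    have h2 : ∑ h ∈ Ioc P (P + L), |∑ t ∈ Icc 1 T, gg a σ c z B h t| ≤
        ∑ b ∈ (Ioc B (4 * B)).filter (fun b : ℕ => (1 + δ) * (B : ℝ) ≤ (b : ℝ)),
          |∑ t ∈ Icc 1 T, Eu σ c z B ((t : ℤ) * (a * t + b))| := by
      have hinj : Set.InjOn (fun h : ℕ => 2 * h) (Ioc P (P + L) : Set ℕ) := by
        intro x _ y _ hxy
        simp only at hxy
        omega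
      calc ∑ h ∈ Ioc P (P + L), |∑ t ∈ Icc 1 T, gg a σ c z B h t|
          = ∑ b ∈ (Ioc P (P + L)).image (fun h : ℕ => 2 * h),
            |∑ t ∈ Icc 1 T, Eu σ c z B ((t : ℤ) * (a * t + b))| := by
            rw [Finset.sum_image hinj]
            rfl
        _ ≤ _ := by
            refine Finset.sum_le_sum_of_subset_of_nonneg ?_ fun _ _ _ => abs_nonneg _
            intro b hb
            rw [mem_image] at hb
            obtain ⟨h, hh, rfl⟩ := hb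
            rw [mem_Ioc] at hh
            rw [mem_filter, mem_Ioc]
            refine ⟨by omega, ?_⟩
            have h3 : (P : ℝ) ≤ h := by exact_mod_cast hh.1.le
            push_cast
            linarith
    have h4 : (T : ℝ) ≤ K' * B := by exact_mod_cast hT
    have h5 : ε1 * ((B : ℝ) * T) ≤ ε1 * K' * (B : ℝ) ^ 2 := by
      calc ε1 * ((B : ℝ) * T) ≤ ε1 * ((B : ℝ) * (K' * B)) := by gcongr
        _ = ε1 * K' * (B : ℝ) ^ 2 := by ring
    have h6 : 0 ≤ 3 * C * (L : ℝ) ^ 2 := by positivity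
    linarith

theorem rge_one {K B T : ℕ} (hT : T ≤ K * B) :
    Rge (Polynomial.C (1 : ℤ) * Polynomial.X) (3 * K + 15) B T := by
  intro u hu1 hu2
  have h1 : (u : ℤ) ≤ K * B := by exact_mod_cast hu2.trans hT
  rw [Polynomial.eval_mul, Polynomial.eval_C, Polynomial.eval_X, one_mul]
  push_cast
  constructor
  · omega
  · nlinarith

theorem rge_neg {K B T : ℕ} (hT : 2 * T ≤ B) :
    Rge (Polynomial.C (-1 : ℤ) * Polynomial.X) (3 * K + 15) B T := by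
  intro u hu1 hu2
  have h1 : 2 * (u : ℤ) ≤ B := by
    have : 2 * u ≤ B := by omega
    exact_mod_cast this
  have h2 : (0 : ℤ) ≤ (K : ℤ) * B := by positivity
  rw [Polynomial.eval_mul, Polynomial.eval_C, Polynomial.eval_X]
  push_cast
  constructor
  · omega
  · nlinarith

/-- one block -/
theorem block {K N z H : ℕ} {C Cz ε : ℝ} {c τ : ℤ} (hC : 0 < C) (hK : 1 ≤ K) (hN : 2 ≤ N)
    (hε : 0 < ε) (hNC : 720 * C ≤ ε * N) (hc0 : c ≠ 0) (hτ : τ = 1 ∨ τ = -1)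
    (hcK : c.natAbs ≤ K * H ^ 2)
    (hup : ∀ B : ℕ, H ≤ B → c.natAbs ≤ B ^ 3 → UpH C z B c)
    (hMC : ∀ a : ℤ, (a = 1 ∨ a = -1) → ∀ B : ℕ, H ≤ B → c.natAbs ≤ (3 * K + 15) * B ^ 2 →
      MCH (3 * K + 15) (ε / (432 * ((3 * K + 15 : ℕ) : ℝ) * N)) (1 / N) z B c a)
    (hloc : ∀ (τ c : ℤ) (h M1 M2 : ℕ), M1 ≤ M2 →
      |∑ m ∈ Ioc M1 M2, lz z (V τ c h m) - ((M2 : ℝ) - M1) * Sq τ c h z| ≤ Cz)
    (h1 : 6 * N ^ 2 ≤ H) (h2 : K + 5 ≤ H) (h3 : 6 * (N : ℝ) ≤ Real.log H)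
    (h4 : (Real.log (K * (H : ℝ) ^ 2) + (VW 0 z)⁻¹) +
      (√(6 * (H : ℝ)) + 1) * (Real.log (6 * (H : ℝ)) + (VW 0 z)⁻¹) + Cz ≤ ε / 8 * H)
    {M P L : ℕ} (hM : M ≤ K * H) (hP1 : H ≤ P) (hP2 : P ≤ 3 * H) (hL1 : H ≤ N * L)
    (hL2 : N * L ≤ 2 * H) :
    ∑ h ∈ Ioc P (P + L), |∑ m ∈ Icc 1 M, lp (V τ c h m) -
      Sq τ c h z * (((Icc 1 M).filter (fun m : ℕ => 2 ≤ V τ c h m)).card : ℝ)| ≤
      ε / N * (H : ℝ) ^ 2 := by
  obtain ⟨B, hB⟩ : ∃ B, B = 2 * P * N / (N + 1) := ⟨_, rfl⟩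
  obtain ⟨T, hT⟩ : ∃ T, T = B / 2 := ⟨_, rfl⟩
  have fB1 : (N + 1) * B ≤ 2 * P * N := by
    rw [hB]
    exact Nat.mul_div_le _ _
  have fB2 : 2 * P * N < (N + 1) * (B + 1) := by
    rw [hB]
    exact Nat.lt_mul_div_succ _ (by omega)
  have fB3 : P ≤ B := by
    by_contra hcon
    have e1 : (N + 1) * (B + 1) ≤ (N + 1) * P := Nat.mul_le_mul_left _ (by omega)
    have e2 : (N + 1) * P ≤ 2 * P * N := by nlinarith
    omega
  have fB4 : B ≤ 2 * P := by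
    have e1 : (N + 1) * B ≤ (N + 1) * (2 * P) := by nlinarith
    exact Nat.le_of_mul_le_mul_left e1 (by omega)
  have fH0 : 1 ≤ H := by omega
  have fNN : N + 1 ≤ H := by nlinarith
  have fL0 : L ≤ H := by
    have : 2 * L ≤ N * L := Nat.mul_le_mul_right _ hN
    omega
  have fL1 : 1 ≤ L := by
    by_contra hcon
    have : L = 0 := by omega
    rw [this] at hL1
    omega
  have fT1 : 2 * T ≤ B := by omega
  have fT2 : B ≤ 2 * T + 1 := by omega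
  have fTP : T ≤ P := by omega
  have fHB : H ≤ B := hP1.trans fB3
  have fBH : B ≤ 6 * H := by omega
  -- real versions
  have hHr : (1 : ℝ) ≤ H := by exact_mod_cast fH0
  have hH0 : (0 : ℝ) < H := by linarith
  have hNr : (2 : ℝ) ≤ N := by exact_mod_cast hN
  have hN0 : (0 : ℝ) < N := by linarith
  have hBr : (B : ℝ) ≤ 6 * H := by exact_mod_cast fBH
  have hHB : (H : ℝ) ≤ B := by exact_mod_cast fHB
  have hB0 : (0 : ℝ) < B := by linarith
  have hL1r : (H : ℝ) ≤ N * L := by exact_mod_cast hL1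
  have hL2r : (N : ℝ) * L ≤ 2 * H := by exact_mod_cast hL2
  have hLr : (L : ℝ) ≤ 2 * H / N := by
    rw [le_div_iff₀ hN0]
    linarith
  have hL0r : (0 : ℝ) ≤ L := Nat.cast_nonneg _
  obtain ⟨L', hL'⟩ : ∃ L', L' = P + L - T := ⟨_, rfl⟩
  have hL'r : (L' : ℝ) = (P : ℝ) + L - T := by
    rw [hL', Nat.cast_sub (by omega)]
    push_cast
    ring
  have hL'2 : (L' : ℝ) ≤ 6 * H / N := by
    rw [le_div_iff₀ hN0, hL'r]
    have e1 : (N + 1) * (B + 1) ≤ (N + 1) * (2 * T + 2) := Nat.mul_le_mul_left _ (by omega)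
    have e2 : P * N < (N + 1) * (T + 1) := by nlinarith
    have e3 : (P : ℝ) * N < (N + 1) * (T + 1) := by exact_mod_cast e2
    have e4 : (P : ℝ) ≤ 3 * H := by exact_mod_cast hP2
    have e5 : (N : ℝ) + 1 ≤ H := by exact_mod_cast fNN
    have e6 : (T : ℝ) ≤ P := by exact_mod_cast fTP
    nlinarith
  have hL'L : (L : ℝ) ≤ L' := by
    rw [hL'r]
    have e6 : (T : ℝ) ≤ P := by exact_mod_cast fTP
    linarith
  -- conditions
  have cBL : B ≤ L ^ 2 := by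
    have e1 : H * H ≤ (N * L) * (N * L) := Nat.mul_le_mul hL1 hL1
    have e2 : 6 * N ^ 2 * H ≤ N ^ 2 * L ^ 2 := by nlinarith
    have e3 : N ^ 2 * (6 * H) ≤ N ^ 2 * L ^ 2 := by nlinarith
    have e4 : 6 * H ≤ L ^ 2 := Nat.le_of_mul_le_mul_left e3 (by positivity)
    omega
  have cc3 : c.natAbs ≤ B ^ 3 := by
    have e1 : K * H ^ 2 ≤ B * B ^ 2 :=
      Nat.mul_le_mul (by omega) (Nat.pow_le_pow_left fHB 2)
    calc c.natAbs ≤ K * H ^ 2 := hcK
      _ ≤ B * B ^ 2 := e1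
      _ = B ^ 3 := by ring
  have cc2 : c.natAbs ≤ (3 * K + 15) * B ^ 2 := by
    have e1 : K * H ^ 2 ≤ (3 * K + 15) * B ^ 2 :=
      Nat.mul_le_mul (by omega) (Nat.pow_le_pow_left fHB 2)
    exact hcK.trans e1
  have hupB := hup B fHB cc3
  have hKB : (K + 5) * B ≤ B ^ 2 := by
    rw [pow_two]
    exact Nat.mul_le_mul_right _ (by omega)
  have hMB : M ≤ K * B := hM.trans (Nat.mul_le_mul_left _ fHB)
  have hKB1 : 6 * B ≤ B ^ 2 := by nlinarith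
  have hKB' : K * B + 5 * B ≤ B ^ 2 := by
    have : (K + 5) * B = K * B + 5 * B := by ring
    omega
  have hlogB : 6 * (N : ℝ) ≤ Real.log B := h3.trans (Real.log_le_log hH0 hHB)
  have cLog : (B : ℝ) ≤ (L : ℝ) * Real.log B := by
    have e1 : (L : ℝ) * (6 * N) ≤ L * Real.log B := mul_le_mul_of_nonneg_left hlogB hL0r
    linarith
  have cδ : (1 + 1 / (N : ℝ)) * (B : ℝ) ≤ 2 * P := by
    have e1 : ((N : ℝ) + 1) * B ≤ 2 * P * N := by exact_mod_cast fB1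
    have e2 : (1 + 1 / (N : ℝ)) * (B : ℝ) = ((N : ℝ) + 1) * B / N := by
      field_simp
    rw [e2, div_le_iff₀ hN0]
    exact e1
  have hnτ : -τ = 1 ∨ -τ = -1 := by
    rcases hτ with rfl | rfl
    · exact Or.inr rfl
    · exact Or.inl (by norm_num)
  obtain ⟨ε1, hε1⟩ : ∃ ε1, ε1 = ε / (432 * ((3 * K + 15 : ℕ) : ℝ) * N) := ⟨_, rfl⟩
  have hK'0 : (0 : ℝ) < ((3 * K + 15 : ℕ) : ℝ) := by
    have : 0 < 3 * K + 15 := by omega
    exact_mod_cast this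
  have hε10 : 0 ≤ ε1 := by
    rw [hε1]
    positivity
  have hBK : B ≤ (3 * K + 15) * B := Nat.le_mul_of_pos_left _ (by omega)
  -- the main terms
  have m1 := mainb (σ := τ) (P := P) (L := L) (T := M - (P + L)) (by rw [← hε1]; exact hε10) hupB
    (hMC 1 (Or.inl rfl) B fHB cc2) hτ (Or.inl rfl) cBL (by omega) (by omega) cδ fB4 (by omega) cLog
    (by
      have : K * B ≤ (3 * K + 15) * B := Nat.mul_le_mul_right _ (by omega)
      omega) (rge_one (by omega)) hC.le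
  have m2 := mainb (σ := -τ) (P := P) (L := L) (T := T) (by rw [← hε1]; exact hε10) hupB
    (hMC (-1) (Or.inr rfl) B fHB cc2) hnτ (Or.inr rfl) cBL (by omega) (by omega) cδ fB4 (by omega)
    cLog (by omega) (rge_neg fT1) hC.le
  have m3 := mainb (σ := -τ) (P := P) (L := L) (T := min T (P + L - M))
    (by rw [← hε1]; exact hε10) hupB
    (hMC (-1) (Or.inr rfl) B fHB cc2) hnτ (Or.inr rfl) cBL (by omega) (by omega) cδ fB4 (by omega)
    cLog (by have := min_le_left T (P + L - M); omega)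
    (rge_neg (by have := min_le_left T (P + L - M); omega)) hC.le
  rw [← hε1] at m1 m2 m3
  -- the other terms
  have b1 := blkUp hupB (a := 1) (P := P) (L := L) (X1 := M - (P + L)) (X2 := M - (P + L) + L) hτ
    (by omega) (by omega) cBL (by omega) (Or.inl rfl)
  have b2 := blkUp hupB (a := -1) (P := P) (L := L) (X1 := P - M) (X2 := P - M + L) hnτ
    (by omega) (by omega) cBL (by omega) (Or.inr ⟨rfl, by omega⟩)
  have b3 := blkUp hupB (a := -1) (P := P) (L := L) (X1 := T) (X2 := P + L) hnτ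
    (by omega) (by omega) cBL (by omega) (Or.inr ⟨rfl, by omega⟩)
  have b1' : ∑ h ∈ Ioc P (P + L), ∑ t ∈ Ioc (M - (P + L)) (M - (P + L) + L), |gg 1 τ c z B h t| ≤
      3 * C * (L : ℝ) ^ 2 := by
    refine b1.trans (le_of_eq ?_)
    push_cast
    ring
  have b2' : ∑ h ∈ Ioc P (P + L), ∑ t ∈ Ioc (P - M) (P - M + L), |gg (-1) (-τ) c z B h t| ≤
      3 * C * (L : ℝ) ^ 2 := by
    refine b2.trans (le_of_eq ?_)
    push_cast
    ring
  have b3' : ∑ h ∈ Ioc P (P + L), ∑ t ∈ Ioc T (P + L), |gg (-1) (-τ) c z B h t| ≤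
      C * ((L' : ℝ) * (L' + 2 * L)) := by
    refine b3.trans (le_of_eq ?_)
    rw [hL'r]
    push_cast
    ring
  -- the small terms
  have hW0 : 0 < (VW 0 z)⁻¹ := inv_pos.2 (VW_pos 0 z)
  have hKr : (1 : ℝ) ≤ K := by exact_mod_cast hK
  have hKH1 : (1 : ℝ) ≤ K * (H : ℝ) ^ 2 := by
    have : (1 : ℝ) ≤ (H : ℝ) ^ 2 := one_le_pow₀ hHr
    nlinarith
  have hEBc : |EB z B c| ≤ Real.log (K * (H : ℝ) ^ 2) + (VW 0 z)⁻¹ := by
    unfold EB
    split_ifs with hcB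
    · apply EE_le _ hKH1
      have e1 : c ≤ (c.natAbs : ℤ) := Int.le_natAbs
      have e2 : (c : ℝ) ≤ ((c.natAbs : ℕ) : ℝ) := by
        rw [← Int.cast_natCast (R := ℝ) c.natAbs]
        exact (Int.cast_le (R := ℝ)).2 e1
      have e3 : ((c.natAbs : ℕ) : ℝ) ≤ K * (H : ℝ) ^ 2 := by exact_mod_cast hcK
      linarith
    · rw [abs_zero]
      have := Real.log_nonneg hKH1
      linarith
  have hsm : ((Nat.sqrt B : ℝ) + 1) * (Real.log B + (VW 0 z)⁻¹) ≤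
      (√(6 * (H : ℝ)) + 1) * (Real.log (6 * (H : ℝ)) + (VW 0 z)⁻¹) := by
    have e1 : (Nat.sqrt B : ℝ) ≤ √(6 * (H : ℝ)) :=
      (Real.nat_sqrt_le_real_sqrt).trans (Real.sqrt_le_sqrt hBr)
    have e2 : Real.log B ≤ Real.log (6 * (H : ℝ)) := Real.log_le_log hB0 hBr
    have e3 : 0 ≤ Real.log B := Real.log_natCast_nonneg B
    have e4 : (0 : ℝ) ≤ Nat.sqrt B := Nat.cast_nonneg _
    exact mul_le_mul (by linarith) (by linarith) (by linarith) (by linarith)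
  have hB2' : 2 ≤ B := by omega
  obtain ⟨E, hE⟩ : ∃ E, E = |EB z B c| + (((Nat.sqrt B : ℝ) + 1) * (Real.log B + (VW 0 z)⁻¹) + Cz) :=
    ⟨_, rfl⟩
  have hE' : E ≤ ε / 8 * H := by
    rw [hE]
    linarith
  -- the sum
  have hsum : ∑ h ∈ Ioc P (P + L), |∑ m ∈ Icc 1 M, lp (V τ c h m) -
      Sq τ c h z * (((Icc 1 M).filter (fun m : ℕ => 2 ≤ V τ c h m)).card : ℝ)| ≤
      (∑ h ∈ Ioc P (P + L), |∑ t ∈ Icc 1 (M - (P + L)), gg 1 τ c z B h t|) +
      (∑ h ∈ Ioc P (P + L), |∑ t ∈ Icc 1 T, gg (-1) (-τ) c z B h t|) +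
      (∑ h ∈ Ioc P (P + L), |∑ t ∈ Icc 1 (min T (P + L - M)), gg (-1) (-τ) c z B h t|) +
      (∑ h ∈ Ioc P (P + L), ∑ t ∈ Ioc (M - (P + L)) (M - (P + L) + L), |gg 1 τ c z B h t|) +
      (∑ h ∈ Ioc P (P + L), ∑ t ∈ Ioc (P - M) (P - M + L), |gg (-1) (-τ) c z B h t|) +
      2 * (∑ h ∈ Ioc P (P + L), ∑ t ∈ Ioc T (P + L), |gg (-1) (-τ) c z B h t|) + L * E := by
    have hE2 : (L : ℝ) * E = ∑ _h ∈ Ioc P (P + L), E := by
      rw [Finset.sum_const, Nat.card_Ioc, nsmul_eq_mul, Nat.add_sub_cancel_left]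
    rw [hE2, Finset.mul_sum, ← Finset.sum_add_distrib, ← Finset.sum_add_distrib,
      ← Finset.sum_add_distrib, ← Finset.sum_add_distrib, ← Finset.sum_add_distrib,
      ← Finset.sum_add_distrib]
    refine Finset.sum_le_sum fun h hh => ?_
    have e1 := D_h hloc hτ c h M B hB2'
    have e2 := per_h τ c z B P L M T h hh fTP
    rw [hE]
    linarith
  refine hsum.trans ?_
  have q1 : (L : ℝ) ^ 2 ≤ 4 * (H : ℝ) ^ 2 / N ^ 2 := by
    calc (L : ℝ) ^ 2 ≤ (2 * H / N) ^ 2 := pow_le_pow_left₀ hL0r hLr 2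
      _ = 4 * (H : ℝ) ^ 2 / N ^ 2 := by ring
  have q2 : (L' : ℝ) * (L' + 2 * L) ≤ 60 * (H : ℝ) ^ 2 / N ^ 2 := by
    have hL'0 : (0 : ℝ) ≤ L' := Nat.cast_nonneg _
    calc (L' : ℝ) * (L' + 2 * L) ≤ (6 * H / N) * (6 * H / N + 2 * (2 * H / N)) := by gcongr
      _ = 60 * (H : ℝ) ^ 2 / N ^ 2 := by ring
  have q3 : ε1 * ((3 * K + 15 : ℕ) : ℝ) * (B : ℝ) ^ 2 ≤ ε / (12 * N) * (H : ℝ) ^ 2 := by
    calc ε1 * ((3 * K + 15 : ℕ) : ℝ) * (B : ℝ) ^ 2 ≤ ε1 * ((3 * K + 15 : ℕ) : ℝ) * (6 * H) ^ 2 := by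
          gcongr
      _ = ε / (12 * N) * (H : ℝ) ^ 2 := by
          rw [hε1]
          field_simp
          ring
  have q4 : C * (H : ℝ) ^ 2 / N ^ 2 ≤ ε / (720 * N) * (H : ℝ) ^ 2 := by
    have e1 : C * (H : ℝ) ^ 2 / N ^ 2 = C / N ^ 2 * (H : ℝ) ^ 2 := by ring
    rw [e1]
    apply mul_le_mul_of_nonneg_right _ (by positivity)
    rw [div_le_div_iff₀ (by positivity) (by positivity)]
    nlinarith
  have q5 : (L : ℝ) * E ≤ ε / (4 * N) * (H : ℝ) ^ 2 := by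
    have hEpos : 0 ≤ ε / 8 * H := by positivity
    calc (L : ℝ) * E ≤ L * (ε / 8 * H) := mul_le_mul_of_nonneg_left hE' hL0r
      _ ≤ (2 * H / N) * (ε / 8 * H) := mul_le_mul_of_nonneg_right hLr hEpos
      _ = ε / (4 * N) * (H : ℝ) ^ 2 := by ring
  have q6 : C * (L : ℝ) ^ 2 ≤ 4 * (C * (H : ℝ) ^ 2 / N ^ 2) := by
    calc C * (L : ℝ) ^ 2 ≤ C * (4 * (H : ℝ) ^ 2 / N ^ 2) := mul_le_mul_of_nonneg_left q1 hC.le
      _ = _ := by ring
  have q7 : C * ((L' : ℝ) * (L' + 2 * L)) ≤ 60 * (C * (H : ℝ) ^ 2 / N ^ 2) := by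
    calc C * ((L' : ℝ) * (L' + 2 * L)) ≤ C * (60 * (H : ℝ) ^ 2 / N ^ 2) :=
          mul_le_mul_of_nonneg_left q2 hC.le
      _ = _ := by ring
  have r1 : ε / (12 * N) * (H : ℝ) ^ 2 = (ε / N * (H : ℝ) ^ 2) / 12 := by
    field_simp
  have r2 : ε / (720 * N) * (H : ℝ) ^ 2 = (ε / N * (H : ℝ) ^ 2) / 720 := by
    field_simp
  have r3 : ε / (4 * N) * (H : ℝ) ^ 2 = (ε / N * (H : ℝ) ^ 2) / 4 := by
    field_simp
  rw [r1] at q3
  rw [r2] at q4
  rw [r3] at q5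
  have r4 : 0 ≤ ε / N * (H : ℝ) ^ 2 := by positivity
  linarith

theorem cover (F : ℕ → ℝ) (H L n : ℕ) : ∑ h ∈ Ioc H (H + n * L), F h =
    ∑ j ∈ range n, ∑ h ∈ Ioc (H + j * L) (H + j * L + L), F h := by
  induction n with
  | zero => simp
  | succ n ih =>
    rw [Finset.sum_range_succ, ← ih]
    have e1 : H + (n + 1) * L = H + n * L + L := by ring
    rw [e1]
    exact (Finset.sum_Ioc_consecutive F (by omega) (by omega)).symm

theorem ev_small (K : ℕ) (hK : 1 ≤ K) (ε W Cz : ℝ) (hε : 0 < ε) :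
    ∀ᶠ H : ℕ in Filter.atTop, (Real.log (K * (H : ℝ) ^ 2) + W) +
      (√(6 * (H : ℝ)) + 1) * (Real.log (6 * (H : ℝ)) + W) + Cz ≤ ε / 8 * H := by
  have hlo : ∀ η : ℝ, 0 < η → ∀ᶠ x : ℝ in Filter.atTop, Real.log x ≤ η * √x := by
    intro η hη
    have h1 := (isLittleO_log_rpow_atTop (show (0 : ℝ) < 1 / 2 by norm_num)).bound hη
    filter_upwards [h1, Filter.eventually_ge_atTop 1] with x hx hx1
    rw [Real.norm_eq_abs, Real.norm_eq_abs, abs_of_nonneg (Real.log_nonneg hx1),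
      abs_of_nonneg (by positivity), ← Real.sqrt_eq_rpow] at hx
    exact hx
  obtain ⟨A, hA⟩ : ∃ A : ℝ, A = 11 + 5 * |W| + |Cz| := ⟨_, rfl⟩
  have hA0 : 0 < A := by rw [hA]; positivity
  have key : ∀ᶠ x : ℝ in Filter.atTop, (Real.log (K * x ^ 2) + W) +
      (√(6 * x) + 1) * (Real.log (6 * x) + W) + Cz ≤ ε / 8 * x := by
    filter_upwards [hlo (ε / (8 * A)) (by positivity), Filter.eventually_ge_atTop (6 : ℝ),
      Filter.eventually_ge_atTop (K : ℝ), Filter.eventually_ge_atTop (Real.exp 1)]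
      with x h1 h2 h3 h4
    have hx0 : 0 < x := by linarith
    have hKr : (1 : ℝ) ≤ K := by exact_mod_cast hK
    obtain ⟨l, hl⟩ : ∃ l, l = Real.log x := ⟨_, rfl⟩
    have hl1 : 1 ≤ l := by
      rw [hl, Real.le_log_iff_exp_le hx0]
      exact h4
    have hs1 : 1 ≤ √x := by
      rw [Real.one_le_sqrt]
      linarith
    have e1 : Real.log (K * x ^ 2) ≤ 3 * l := by
      have : Real.log (K * x ^ 2) ≤ Real.log (x ^ 3) := by
        apply Real.log_le_log (by positivity)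
        nlinarith [sq_nonneg x]
      rw [Real.log_pow] at this
      push_cast at this
      linarith
    have e2 : Real.log (6 * x) ≤ 2 * l := by
      have : Real.log (6 * x) ≤ Real.log (x ^ 2) := by
        apply Real.log_le_log (by positivity)
        nlinarith
      rw [Real.log_pow] at this
      push_cast at this
      linarith
    have e3 : √(6 * x) + 1 ≤ 4 * √x := by
      have : √(6 * x) ≤ 3 * √x := by
        rw [Real.sqrt_mul (by norm_num)]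
        apply mul_le_mul_of_nonneg_right _ (Real.sqrt_nonneg _)
        rw [Real.sqrt_le_left (by norm_num)]
        norm_num
      linarith
    have hW := le_abs_self W
    have hW0 := abs_nonneg W
    have hC := le_abs_self Cz
    have hC0 := abs_nonneg Cz
    have e4 : Real.log (6 * x) + W ≤ (2 + |W|) * l := by nlinarith
    have e5 : (√(6 * x) + 1) * (Real.log (6 * x) + W) ≤ (4 * √x) * ((2 + |W|) * l) := by
      have hh : 0 ≤ (2 + |W|) * l := by positivity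
      calc (√(6 * x) + 1) * (Real.log (6 * x) + W) ≤ (√(6 * x) + 1) * ((2 + |W|) * l) :=
            mul_le_mul_of_nonneg_left e4 (by positivity)
        _ ≤ (4 * √x) * ((2 + |W|) * l) := mul_le_mul_of_nonneg_right e3 hh
    have e6 : Real.log (K * x ^ 2) + W + Cz ≤ √x * ((3 + |W| + |Cz|) * l) := by
      have g1 : Real.log (K * x ^ 2) + W + Cz ≤ (3 + |W| + |Cz|) * l := by nlinarith
      have g2 : 0 ≤ (3 + |W| + |Cz|) * l := by positivity
      nlinarith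
    have e7 : √x * (A * l) ≤ ε / 8 * x := by
      have g1 : A * l ≤ ε / 8 * √x := by
        rw [hl]
        calc A * Real.log x ≤ A * (ε / (8 * A) * √x) := mul_le_mul_of_nonneg_left h1 hA0.le
          _ = ε / 8 * √x := by field_simp
      calc √x * (A * l) ≤ √x * (ε / 8 * √x) := mul_le_mul_of_nonneg_left g1 (Real.sqrt_nonneg _)
        _ = ε / 8 * (√x * √x) := by ring
        _ = ε / 8 * x := by rw [Real.mul_self_sqrt hx0.le]
    calc _ = (Real.log (K * x ^ 2) + W + Cz) + (√(6 * x) + 1) * (Real.log (6 * x) + W) := by ring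
      _ ≤ √x * ((3 + |W| + |Cz|) * l) + (4 * √x) * ((2 + |W|) * l) := add_le_add e6 e5
      _ = √x * ((11 + 5 * |W| + |Cz|) * l) := by ring
      _ = √x * (A * l) := by rw [hA]
      _ ≤ ε / 8 * x := e7
  exact tendsto_natCast_atTop_atTop.eventually key

theorem t_BLu (hMC : ∀ (s0 : ℕ) (a : ℤ), a = 1 ∨ a = -1 → S_MCu s0 a) (hLOC : S_LOCu)
    (_hAVS : S_AVSu) (hU0 : S_U0u) (hMER : S_MER) (s0 : ℕ) : S_BLu s0 := by
  intro K ε hK hε
  obtain ⟨C, hC, hup⟩ := up hU0 hMER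
  obtain ⟨N0, hN0⟩ := exists_nat_ge (720 * C / ε)
  obtain ⟨N, hN⟩ : ∃ N, N = N0 + 2 := ⟨_, rfl⟩
  have hN2 : 2 ≤ N := by omega
  have hNr : (0 : ℝ) < N := by
    have : 0 < N := by omega
    exact_mod_cast this
  have hNC : 720 * C ≤ ε * N := by
    have e1 : (N0 : ℝ) ≤ N := by
      have : N0 ≤ N := by omega
      exact_mod_cast this
    have e2 : 720 * C / ε ≤ N := hN0.trans e1
    rw [div_le_iff₀ hε] at e2
    linarith
  have hK'0 : (0 : ℝ) < ((3 * K + 15 : ℕ) : ℝ) := by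
    have : 0 < 3 * K + 15 := by omega
    exact_mod_cast this
  have hε1 : 0 < ε / (432 * ((3 * K + 15 : ℕ) : ℝ) * N) := by positivity
  have hδ : 0 < 1 / (N : ℝ) := by positivity
  obtain ⟨z1, hz1⟩ := hMC s0 1 (Or.inl rfl) (3 * K + 15) _ _ (by omega) hε1 hδ
  obtain ⟨z2, hz2⟩ := hMC s0 (-1) (Or.inr rfl) (3 * K + 15) _ _ (by omega) hε1 hδ
  refine ⟨max (max z1 z2) 2, fun z hz => ?_⟩
  have g1 : z1 ≤ z := (le_max_left _ _).trans ((le_max_left _ _).trans hz)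
  have g2 : z2 ≤ z := (le_max_right _ _).trans ((le_max_left _ _).trans hz)
  have g3 : 2 ≤ z := (le_max_right _ _).trans hz
  obtain ⟨B1, hB1⟩ := hz1 z g1
  obtain ⟨B2, hB2⟩ := hz2 z g2
  obtain ⟨B3, hB3⟩ := hup z g3
  obtain ⟨Cz, -, hloc⟩ := hLOC z
  have hlog : ∀ᶠ H : ℕ in Filter.atTop, 6 * (N : ℝ) ≤ Real.log H :=
    (Real.tendsto_log_atTop.comp tendsto_natCast_atTop_atTop).eventually_ge_atTop _
  have hev := (((((ev_small K hK ε (VW 0 z)⁻¹ Cz hε).and hlog).and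
    (Filter.eventually_ge_atTop B1)).and (Filter.eventually_ge_atTop B2)).and
    (Filter.eventually_ge_atTop B3)).and ((Filter.eventually_ge_atTop (6 * N ^ 2)).and
      (Filter.eventually_ge_atTop (K + 5)))
  obtain ⟨H0, hH0⟩ := Filter.eventually_atTop.1 hev
  refine ⟨H0, fun H hH M c τ hT hτ hcK hM => ?_⟩
  obtain ⟨⟨⟨⟨⟨k1, k2⟩, k3⟩, k4⟩, k5⟩, k6, k7⟩ := hH0 H hH
  obtain ⟨F, hF⟩ : ∃ F : ℕ → ℝ, F = fun h : ℕ => |∑ m ∈ Icc 1 M, lp (V τ c h m) -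
      Sq τ c h z * (((Icc 1 M).filter (fun m : ℕ => 2 ≤ V τ c h m)).card : ℝ)| := ⟨_, rfl⟩
  have hF0 : ∀ h, 0 ≤ F h := fun h => by
    rw [hF]
    exact abs_nonneg _
  obtain ⟨L, hL⟩ : ∃ L, L = H / N + 1 := ⟨_, rfl⟩
  have hNH : N ≤ H := by nlinarith
  have hL1 : H ≤ N * L := by
    rw [hL]
    exact (Nat.lt_mul_div_succ H (by omega)).le
  have hL2 : N * L ≤ 2 * H := by
    rw [hL, Nat.mul_add, Nat.mul_one]
    have := Nat.mul_div_le H N
    omega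
  have hblock : ∀ j ∈ range N, ∑ h ∈ Ioc (H + j * L) (H + j * L + L), F h ≤
      ε / N * (H : ℝ) ^ 2 := by
    intro j hj
    rw [mem_range] at hj
    have hjL : j * L ≤ N * L := Nat.mul_le_mul_right _ hj.le
    rw [hF]
    exact block hC hK hN2 hε hNC hT.1 hτ hcK
      (fun B hB hcB σ hσ X1 X2 I1 I2 a1 a2 a3 a4 a5 a6 =>
        hB3 B (k5.trans hB) c σ hT.1 hσ hcB X1 X2 I1 I2 a1 a2 a3 a4 a5 a6)
      (fun a ha B hB hcB => by
        rcases ha with rfl | rfl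
        · intro T σ hσ a1 a2 a3
          exact hB1 B (k3.trans hB) T c σ hT hσ hcB a1 a2 a3
        · intro T σ hσ a1 a2 a3
          exact hB2 B (k4.trans hB) T c σ hT hσ hcB a1 a2 a3)
      hloc k6 k7 k2 k1 hM (by omega) (by omega) hL1 hL2
  have hsub : ∑ h ∈ Ioc H (2 * H), F h ≤ ∑ h ∈ Ioc H (H + N * L), F h := by
    refine Finset.sum_le_sum_of_subset_of_nonneg ?_ fun _ _ _ => hF0 _
    exact Finset.Ioc_subset_Ioc_right (by omega)
  have hfin : ∑ h ∈ Ioc H (2 * H), F h ≤ ε * (H : ℝ) ^ 2 := by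
    refine hsub.trans ?_
    rw [cover F H L N]
    refine (Finset.sum_le_sum hblock).trans (le_of_eq ?_)
    rw [Finset.sum_const, card_range, nsmul_eq_mul]
    field_simp
  rw [hF] at hfin
  exact hfin

end

end Pool.Agent.N519.QU
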