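import Pool.Agent.N728.QU.Def

/-!
# QU/BL, first part: the upper bound, reindexing, small values (helper519)
-/

set_option autoImplicit false

namespace Pool.Agent.N519.QU

open Finset Pool.Agent.N728.QL Pool.Agent.N728.QG Pool.Agent.N728.QU

noncomputable section

/-! ### Basics -/

theorem VW_pos (w y : ℕ) : 0 < VW w y := by
  unfold VW
  apply Finset.prod_pos
  intro p hp
  have h1 : 2 ≤ p := (mem_filter.1 hp).2.two_le
  have h2 : (2 : ℝ) ≤ p := by exact_mod_cast h1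
  have h3 : 1 / (p : ℝ) ≤ 1 / 2 := one_div_le_one_div_of_le (by norm_num) h2
  linarith

theorem lz_nonneg (z : ℕ) (n : ℤ) : 0 ≤ lz z n := by
  unfold lz
  split_ifs
  · exact (inv_pos.2 (VW_pos 0 z)).le
  · exact le_rfl

theorem lz_le (z : ℕ) (n : ℤ) : lz z n ≤ (VW 0 z)⁻¹ := by
  unfold lz
  split_ifs
  · exact le_rfl
  · exact (inv_pos.2 (VW_pos 0 z)).le

theorem lz_neg (z : ℕ) (n : ℤ) : lz z (-n) = lz z n := by
  have h : Rg 0 z (-n) ↔ Rg 0 z n := by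
    unfold Rg
    simp only [dvd_neg]
  unfold lz
  by_cases hr : Rg 0 z n
  · rw [if_pos hr, if_pos (h.2 hr)]
  · rw [if_neg hr, if_neg (fun h' => hr (h.1 h'))]

theorem lp_of_lt {n : ℤ} (h : n < 2) : lp n = 0 := by
  unfold Pool.Agent.N728.QL.lp
  rw [if_neg]
  intro hp
  have := hp.two_le
  omega

theorem lp_nonneg (n : ℤ) : 0 ≤ lp n := by
  unfold Pool.Agent.N728.QL.lp
  split_ifs with hp
  · have h1 : 1 ≤ n := by
      have := hp.two_le
      omega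
    exact Real.log_nonneg (by exact_mod_cast h1)
  · exact le_rfl

theorem lp_le {n : ℤ} {x : ℝ} (h : (n : ℝ) ≤ x) (hx : 1 ≤ x) : lp n ≤ Real.log x := by
  unfold Pool.Agent.N728.QL.lp
  split_ifs with hp
  · have h1 : 1 ≤ n := by
      have := hp.two_le
      omega
    have h2 : (1 : ℝ) ≤ n := by exact_mod_cast h1
    exact Real.log_le_log (by linarith) h
  · exact Real.log_nonneg hx

theorem EE_abs (z : ℕ) (n : ℤ) : |EE z n| ≤ lp n + lz z n := by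
  unfold EE
  rw [abs_le]
  constructor <;> linarith [lp_nonneg n, lz_nonneg z n]

theorem EE_le {z : ℕ} {n : ℤ} {x : ℝ} (h : (n : ℝ) ≤ x) (hx : 1 ≤ x) :
    |EE z n| ≤ Real.log x + (VW 0 z)⁻¹ :=
  (EE_abs z n).trans (add_le_add (lp_le h hx) (lz_le z n))

/-! ### The upper bound -/

theorem exists_z1 (k B : ℕ) (hB : 2 ^ (k + 2) ≤ B) : ∃ z1 : ℕ, 2 ≤ z1 ∧ z1 ^ (k + 2) ≤ B ∧ z1 < B ∧
    Real.log B ≤ 2 * (k + 2) * Real.log z1 := by
  have h2B : 2 ≤ B := by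
    calc 2 = 2 ^ 1 := by norm_num
      _ ≤ 2 ^ (k + 2) := Nat.pow_le_pow_right (by norm_num) (by omega)
      _ ≤ B := hB
  obtain ⟨z1, hz1⟩ : ∃ z1, z1 = Nat.findGreatest (fun z => z ^ (k + 2) ≤ B) B := ⟨_, rfl⟩
  have h1 : z1 ^ (k + 2) ≤ B := by
    rw [hz1]
    exact Nat.findGreatest_spec (P := fun z => z ^ (k + 2) ≤ B) h2B hB
  have h2 : 2 ≤ z1 := by
    rw [hz1]
    exact Nat.le_findGreatest h2B hB
  have h3 : z1 < B := by
    refine lt_of_lt_of_le ?_ h1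
    calc z1 = z1 ^ 1 := (pow_one _).symm
      _ < z1 ^ (k + 2) := Nat.pow_lt_pow_right (by omega) (by omega)
  have h4 : ¬ (z1 + 1) ^ (k + 2) ≤ B := by
    have := Nat.findGreatest_is_greatest (P := fun z => z ^ (k + 2) ≤ B) (n := B) (k := z1 + 1)
      (by rw [← hz1]; omega) (by omega)
    exact this
  refine ⟨z1, h2, h1, h3, ?_⟩
  have h5 : (B : ℝ) ≤ ((z1 : ℝ) ^ 2) ^ (k + 2) := by
    have h6 : B ≤ (z1 ^ 2) ^ (k + 2) := by
      refine (not_le.1 h4).le.trans (Nat.pow_le_pow_left ?_ _)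
      nlinarith
    exact_mod_cast h6
  have hB0 : (0 : ℝ) < B := by
    have : 0 < B := by omega
    exact_mod_cast this
  have h7 := Real.log_le_log hB0 h5
  rw [Real.log_pow, Real.log_pow] at h7
  push_cast at h7
  linarith

theorem pt {k B z z1 : ℕ} {C4 : ℝ} (hC4 : 1 ≤ C4) (hz1 : 2 ≤ z1) (hz1B : z1 < B)
    (hlog : Real.log B ≤ 2 * (k + 2) * Real.log z1) (hmer : Real.log z1 ≤ C4 * (VW 0 z1)⁻¹)
    {σ c n : ℤ} (hn : σ * n + c ≤ (B : ℤ) ^ 5) :
    |Eu σ c z B n| ≤ 10 * C4 * (k + 2) * lz z1 (σ * n + c) + lz z (σ * n + c) := by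
  have hC0 : 0 < C4 := by linarith
  unfold Eu
  by_cases hB : (B : ℤ) ≤ σ * n + c
  · rw [if_pos hB]
    obtain ⟨x, hx⟩ : ∃ x, x = σ * n + c := ⟨_, rfl⟩
    rw [← hx] at hn hB ⊢
    refine (EE_abs z x).trans (add_le_add ?_ le_rfl)
    unfold Pool.Agent.N728.QL.lp
    split_ifs with hp
    · have hR : Rg 0 z1 x := by
        intro p hpp _ hpz hdvd
        have hx0 : ((x.toNat : ℕ) : ℤ) = x := Int.toNat_of_nonneg (by omega)
        rw [← hx0] at hdvd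
        have h2 : p ∣ x.toNat := by exact_mod_cast hdvd
        have h3 := (Nat.prime_dvd_prime_iff_eq hpp hp).1 h2
        omega
      have hlz : lz z1 x = (VW 0 z1)⁻¹ := by
        unfold lz
        rw [if_pos hR]
      rw [hlz]
      have hxpos : (0 : ℝ) < x := by
        have : 0 < x := by omega
        exact_mod_cast this
      have h4 : Real.log x ≤ 5 * Real.log B := by
        have e1 : (5 : ℝ) * Real.log B = Real.log ((B : ℝ) ^ 5) := by
          rw [Real.log_pow]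
          norm_num
        rw [e1]
        apply Real.log_le_log hxpos
        exact_mod_cast hn
      calc Real.log x ≤ 5 * Real.log B := h4
        _ ≤ 5 * (2 * (k + 2) * Real.log z1) := by linarith
        _ ≤ 5 * (2 * (k + 2) * (C4 * (VW 0 z1)⁻¹)) := by gcongr
        _ = 10 * C4 * (k + 2) * (VW 0 z1)⁻¹ := by ring
    · exact mul_nonneg (by positivity) (lz_nonneg _ _)
  · rw [if_neg hB, abs_zero]
    exact add_nonneg (mul_nonneg (by positivity) (lz_nonneg _ _)) (lz_nonneg _ _)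

theorem up (hU0 : S_U0u) (hMER : S_MER) : ∃ C : ℝ, 0 < C ∧ ∀ z : ℕ, 2 ≤ z → ∃ B0 : ℕ, ∀ B : ℕ,
    B0 ≤ B → ∀ c σ : ℤ, c ≠ 0 → (σ = 1 ∨ σ = -1) → c.natAbs ≤ B ^ 3 → ∀ X1 X2 I1 I2 : ℕ, X1 ≤ X2 →
    B ≤ (X2 - X1) ^ 2 → X2 ≤ B ^ 2 → I1 ≤ I2 → B ≤ (I2 - I1) ^ 2 → I2 ≤ B ^ 2 →
    ∑ u ∈ Ioc X1 X2, ∑ v ∈ Ioc I1 I2, |Eu σ c z B ((u * v : ℕ) : ℤ)| ≤
      C * (((X2 : ℝ) - X1) * ((I2 : ℝ) - I1)) := by
  obtain ⟨C4, hC4, -, hmer⟩ := hMER
  obtain ⟨C, hC, k, B0, hU⟩ := hU0 2 (by norm_num)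
  have hC0 : 0 < C4 := by linarith
  refine ⟨(10 * C4 * (k + 2) + 1) * C, by positivity, fun z hz =>
    ⟨max (max B0 (2 ^ (k + 2))) (max (z ^ k) 2), ?_⟩⟩
  intro B hB c σ hc hσ hcB X1 X2 I1 I2 h1 h2 h3 h4 h5 h6
  have g1 : B0 ≤ B := (le_max_left _ _).trans ((le_max_left _ _).trans hB)
  have g2 : 2 ^ (k + 2) ≤ B := (le_max_right _ _).trans ((le_max_left _ _).trans hB)
  have g3 : z ^ k ≤ B := (le_max_left _ _).trans ((le_max_right _ _).trans hB)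
  have g4 : 2 ≤ B := (le_max_right _ _).trans ((le_max_right _ _).trans hB)
  obtain ⟨z1, hz2, hz1k, hz1B, hlog⟩ := exists_z1 k B g2
  have hz1k' : z1 ^ k ≤ B := (Nat.pow_le_pow_right (by omega) (by omega)).trans hz1k
  obtain ⟨c', hc'⟩ : ∃ c' : ℤ, c' = σ * c := ⟨_, rfl⟩
  have hc'0 : c' ≠ 0 := by
    rw [hc']
    rcases hσ with rfl | rfl <;> simpa using hc
  have hc'B : c'.natAbs ≤ B ^ 3 := by
    rw [hc']
    rcases hσ with rfl | rfl <;> simpa using hcB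
  have hval : ∀ (y n : ℕ), lz y (σ * (n : ℤ) + c) = lz y ((n : ℤ) + c') := by
    intro y n
    rw [hc']
    rcases hσ with rfl | rfl
    · rw [one_mul, one_mul]
    · rw [← lz_neg]
      congr 1
      ring
  have hfil : ∀ S : Finset ℕ, S.filter (fun u => 1 ∣ u) = S := fun S =>
    Finset.filter_true_of_mem fun u _ => one_dvd u
  have b1 := hU B g1 c' hc'0 hc'B z1 hz2 hz1k' 1 1 X1 X2 I1 I2 le_rfl le_rfl
    (by rw [one_pow]; omega) (by rw [one_pow]; omega) h1 h2 h3 h4 h5 h6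
  have b2 := hU B g1 c' hc'0 hc'B z hz g3 1 1 X1 X2 I1 I2 le_rfl le_rfl
    (by rw [one_pow]; omega) (by rw [one_pow]; omega) h1 h2 h3 h4 h5 h6
  simp only [hfil, Nat.totient_one, Nat.cast_one, mul_one, div_one] at b1 b2
  have hpt : ∀ u ∈ Ioc X1 X2, ∀ v ∈ Ioc I1 I2, |Eu σ c z B ((u * v : ℕ) : ℤ)| ≤
      10 * C4 * (k + 2) * lz z1 (((u * v : ℕ) : ℤ) + c') + lz z (((u * v : ℕ) : ℤ) + c') := by
    intro u hu v hv
    rw [mem_Ioc] at hu hv
    rw [← hval, ← hval]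
    apply pt hC4 hz2 hz1B hlog (hmer z1 hz2).1
    have e1 : u * v ≤ B ^ 2 * B ^ 2 := Nat.mul_le_mul (hu.2.trans h3) (hv.2.trans h6)
    have e2 : ((u * v : ℕ) : ℤ) ≤ (B : ℤ) ^ 4 := by
      have e3 : u * v ≤ B ^ 4 := by
        calc u * v ≤ B ^ 2 * B ^ 2 := e1
          _ = B ^ 4 := by ring
      exact_mod_cast e3
    have e4 : c ≤ (B : ℤ) ^ 3 := by
      have e5 : (c.natAbs : ℤ) ≤ (B : ℤ) ^ 3 := by exact_mod_cast hcB
      have e6 : c ≤ (c.natAbs : ℤ) := Int.le_natAbs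
      linarith
    have e7 : (2 : ℤ) ≤ B := by exact_mod_cast g4
    have e8 : (0 : ℤ) ≤ ((u * v : ℕ) : ℤ) := Int.natCast_nonneg _
    have e9 : σ * ((u * v : ℕ) : ℤ) ≤ ((u * v : ℕ) : ℤ) := by
      rcases hσ with rfl | rfl
      · rw [one_mul]
      · linarith
    have e10 : (B : ℤ) ^ 3 ≤ (B : ℤ) ^ 4 := pow_le_pow_right₀ (by linarith) (by norm_num)
    have e11 : 2 * (B : ℤ) ^ 4 ≤ (B : ℤ) ^ 5 := by
      have : (B : ℤ) ^ 5 = B * (B : ℤ) ^ 4 := by ring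
      rw [this]
      exact mul_le_mul_of_nonneg_right e7 (by positivity)
    linarith
  calc ∑ u ∈ Ioc X1 X2, ∑ v ∈ Ioc I1 I2, |Eu σ c z B ((u * v : ℕ) : ℤ)|
      ≤ ∑ u ∈ Ioc X1 X2, ∑ v ∈ Ioc I1 I2,
        (10 * C4 * (k + 2) * lz z1 (((u * v : ℕ) : ℤ) + c') + lz z (((u * v : ℕ) : ℤ) + c')) :=
        Finset.sum_le_sum fun u hu => Finset.sum_le_sum fun v hv => hpt u hu v hv
    _ = 10 * C4 * (k + 2) * (∑ u ∈ Ioc X1 X2, ∑ v ∈ Ioc I1 I2, lz z1 (((u * v : ℕ) : ℤ) + c')) +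
        ∑ u ∈ Ioc X1 X2, ∑ v ∈ Ioc I1 I2, lz z (((u * v : ℕ) : ℤ) + c') := by
        rw [Finset.mul_sum, ← Finset.sum_add_distrib]
        refine Finset.sum_congr rfl fun u _ => ?_
        rw [Finset.mul_sum, ← Finset.sum_add_distrib]
    _ ≤ 10 * C4 * (k + 2) * (C * (((X2 : ℝ) - X1) * ((I2 : ℝ) - I1))) +
        C * (((X2 : ℝ) - X1) * ((I2 : ℝ) - I1)) :=
        add_le_add (mul_le_mul_of_nonneg_left b1 (by positivity)) b2
    _ = (10 * C4 * (k + 2) + 1) * C * (((X2 : ℝ) - X1) * ((I2 : ℝ) - I1)) := by ring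

/-! ### Sums over blocks -/

theorem blk {F : ℤ → ℝ} (hF : ∀ n, 0 ≤ F n) (a : ℤ) (P L X1 X2 I1 I2 : ℕ)
    (hI : ∀ u ∈ Ioc X1 X2, ∀ h ∈ Ioc P (P + L), (I1 : ℤ) < a * u + 2 * h ∧ a * u + 2 * h ≤ (I2 : ℤ)) :
    ∑ h ∈ Ioc P (P + L), ∑ u ∈ Ioc X1 X2, F ((u : ℤ) * (a * u + ((2 * h : ℕ) : ℤ))) ≤
      ∑ u ∈ Ioc X1 X2, ∑ v ∈ Ioc I1 I2, F ((u * v : ℕ) : ℤ) := by
  rw [Finset.sum_comm]
  refine Finset.sum_le_sum fun u hu => ?_
  have hinj : Set.InjOn (fun h : ℕ => (a * u + 2 * h : ℤ).toNat) (Ioc P (P + L) : Set ℕ) := by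
    intro h hh h' hh' he
    have e1 := hI u hu h (Finset.mem_coe.1 hh)
    have e2 := hI u hu h' (Finset.mem_coe.1 hh')
    simp only at he
    generalize a * (u : ℤ) = w at *
    omega
  calc ∑ h ∈ Ioc P (P + L), F ((u : ℤ) * (a * u + ((2 * h : ℕ) : ℤ)))
      = ∑ h ∈ Ioc P (P + L), (fun v : ℕ => F ((u * v : ℕ) : ℤ)) ((a * u + 2 * h : ℤ).toNat) := by
        refine Finset.sum_congr rfl fun h hh => ?_
        have e1 := hI u hu h hh
        have e2 : (((a * u + 2 * h : ℤ).toNat : ℕ) : ℤ) = a * u + 2 * h :=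
          Int.toNat_of_nonneg (by generalize a * (u : ℤ) = w at *; omega)
        show F ((u : ℤ) * (a * u + ((2 * h : ℕ) : ℤ))) =
          F ((u * (a * u + 2 * h : ℤ).toNat : ℕ) : ℤ)
        congr 1
        rw [Nat.cast_mul u, e2]
        push_cast
        ring
    _ = ∑ v ∈ (Ioc P (P + L)).image (fun h : ℕ => (a * u + 2 * h : ℤ).toNat),
        F ((u * v : ℕ) : ℤ) := by
        rw [Finset.sum_image hinj]
    _ ≤ ∑ v ∈ Ioc I1 I2, F ((u * v : ℕ) : ℤ) := by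
        refine Finset.sum_le_sum_of_subset_of_nonneg ?_ fun _ _ _ => hF _
        intro v hv
        rw [mem_image] at hv
        obtain ⟨h, hh, rfl⟩ := hv
        have e1 := hI u hu h hh
        rw [mem_Ioc]
        generalize a * (u : ℤ) = w at *
        omega

/-- the truncated difference -/
def EB (z B : ℕ) (n : ℤ) : ℝ := if (B : ℤ) ≤ n then EE z n else 0

theorem Eu_eq (σ c : ℤ) (z B : ℕ) (n : ℤ) : Eu σ c z B n = EB z B (σ * n + c) := rfl

/-- the terms of the sum over `u` -/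
def gg (a σ c : ℤ) (z B h t : ℕ) : ℝ := Eu σ c z B ((t : ℤ) * (a * t + ((2 * h : ℕ) : ℤ)))

theorem plus (τ c : ℤ) (z B h M : ℕ) : ∑ m ∈ Ioc h M, EB z B (V τ c h m) =
    ∑ t ∈ Icc 1 (M - h), gg 1 τ c z B h t := by
  refine Finset.sum_nbij' (fun m => m - h) (fun t => t + h) ?_ ?_ ?_ ?_ ?_
  · intro m hm
    rw [mem_Ioc] at hm
    rw [mem_Icc]
    omega
  · intro t ht
    rw [mem_Icc] at ht
    rw [mem_Ioc]
    omega
  · intro m hm
    rw [mem_Ioc] at hm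
    show m - h + h = m
    omega
  · intro t _
    show t + h - h = t
    omega
  · intro m hm
    rw [mem_Ioc] at hm
    obtain ⟨t, rfl⟩ := Nat.exists_eq_add_of_le hm.1.le
    show EB z B (V τ c h (h + t)) = gg 1 τ c z B h (h + t - h)
    rw [Nat.add_sub_cancel_left]
    unfold gg
    rw [Eu_eq]
    congr 1
    unfold V
    push_cast
    ring

theorem minus (τ c : ℤ) (z B h M : ℕ) : ∑ m ∈ Icc 1 (min M (h - 1)), EB z B (V τ c h m) =
    ∑ t ∈ Ioc (h - 1 - M) (h - 1), gg (-1) (-τ) c z B h t := by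
  refine Finset.sum_nbij' (fun m => h - m) (fun t => h - t) ?_ ?_ ?_ ?_ ?_
  · intro m hm
    rw [mem_Icc] at hm
    rw [mem_Ioc]
    omega
  · intro t ht
    rw [mem_Ioc] at ht
    rw [mem_Icc]
    omega
  · intro m hm
    rw [mem_Icc] at hm
    show h - (h - m) = m
    omega
  · intro t ht
    rw [mem_Ioc] at ht
    show h - (h - t) = t
    omega
  · intro m hm
    rw [mem_Icc] at hm
    obtain ⟨t, rfl⟩ := Nat.exists_eq_add_of_le (show m ≤ h by omega)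
    show EB z B (V τ c (m + t) m) = gg (-1) (-τ) c z B (m + t) (m + t - m)
    rw [Nat.add_sub_cancel_left]
    unfold gg
    rw [Eu_eq]
    congr 1
    unfold V
    push_cast
    ring

theorem V_self (τ c : ℤ) (h : ℕ) : V τ c h h = c := by
  unfold V
  ring

theorem split_h (f : ℕ → ℝ) (h M : ℕ) (hh : 1 ≤ h) : ∑ m ∈ Icc 1 M, f m =
    ∑ m ∈ Icc 1 (min M (h - 1)), f m + (if h ≤ M then f h else 0) + ∑ m ∈ Ioc h M, f m := by
  by_cases hM : h ≤ M
  · rw [if_pos hM, min_eq_right (by omega)]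
    have e1 : Icc 1 M = insert h (Icc 1 (h - 1)) ∪ Ioc h M := by
      ext m
      simp only [mem_union, mem_insert, mem_Icc, mem_Ioc]
      omega
    rw [e1, Finset.sum_union, Finset.sum_insert]
    · ring
    · rw [mem_Icc]
      omega
    · rw [Finset.disjoint_left]
      intro m h1 h2
      rw [mem_insert, mem_Icc] at h1
      rw [mem_Ioc] at h2
      omega
  · rw [if_neg hM, min_eq_left (by omega), Finset.Ioc_eq_empty (by omega), Finset.sum_empty,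
      add_zero, add_zero]

theorem diff_eq (f : ℕ → ℝ) {X Y : ℕ} (h : X ≤ Y) :
    ∑ t ∈ Ioc X Y, f t = ∑ t ∈ Icc 1 Y, f t - ∑ t ∈ Icc 1 X, f t := by
  have e1 : Icc 1 Y = Icc 1 X ∪ Ioc X Y := by
    ext m
    simp only [mem_union, mem_Icc, mem_Ioc]
    omega
  rw [e1, Finset.sum_union]
  · ring
  · rw [Finset.disjoint_left]
    intro m h1 h2
    rw [mem_Icc] at h1
    rw [mem_Ioc] at h2
    omega

theorem diff_le (f : ℕ → ℝ) {X Y X' Y' : ℕ} (h : X ≤ Y) (h1 : X' ≤ X) (h2 : Y ≤ Y') :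
    |∑ t ∈ Icc 1 Y, f t - ∑ t ∈ Icc 1 X, f t| ≤ ∑ t ∈ Ioc X' Y', |f t| := by
  rw [← diff_eq f h]
  refine (Finset.abs_sum_le_sum_abs _ _).trans ?_
  exact Finset.sum_le_sum_of_subset_of_nonneg (Finset.Ioc_subset_Ioc h1 h2)
    fun _ _ _ => abs_nonneg _

/-- one `h` -/
theorem per_h (τ c : ℤ) (z B P L M T h : ℕ) (hh : h ∈ Ioc P (P + L)) (hT : T ≤ P) :
    |∑ m ∈ Icc 1 M, EB z B (V τ c h m)| ≤
      |∑ t ∈ Icc 1 (M - (P + L)), gg 1 τ c z B h t| + |∑ t ∈ Icc 1 T, gg (-1) (-τ) c z B h t| +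
      |∑ t ∈ Icc 1 (min T (P + L - M)), gg (-1) (-τ) c z B h t| +
      ∑ t ∈ Ioc (M - (P + L)) (M - (P + L) + L), |gg 1 τ c z B h t| +
      ∑ t ∈ Ioc (P - M) (P - M + L), |gg (-1) (-τ) c z B h t| +
      2 * ∑ t ∈ Ioc T (P + L), |gg (-1) (-τ) c z B h t| + |EB z B c| := by
  rw [mem_Ioc] at hh
  obtain ⟨f, hf⟩ : ∃ f : ℕ → ℝ, f = gg 1 τ c z B h := ⟨_, rfl⟩
  obtain ⟨g, hg⟩ : ∃ g : ℕ → ℝ, g = gg (-1) (-τ) c z B h := ⟨_, rfl⟩
  rw [split_h _ h M (by omega), plus, minus, ← hf, ← hg, V_self]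
  have s1 : |∑ t ∈ Icc 1 (M - h), f t - ∑ t ∈ Icc 1 (M - (P + L)), f t| ≤
      ∑ t ∈ Ioc (M - (P + L)) (M - (P + L) + L), |f t| :=
    diff_le f (by omega) le_rfl (by omega)
  have s2 : |∑ t ∈ Icc 1 (h - 1), g t - ∑ t ∈ Icc 1 T, g t| ≤ ∑ t ∈ Ioc T (P + L), |g t| :=
    diff_le g (by omega) le_rfl (by omega)
  have p1 : 0 ≤ ∑ t ∈ Ioc T (P + L), |g t| := Finset.sum_nonneg fun _ _ => abs_nonneg _
  have p2 : 0 ≤ ∑ t ∈ Ioc (P - M) (P - M + L), |g t| := Finset.sum_nonneg fun _ _ => abs_nonneg _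
  have s3 : |∑ t ∈ Icc 1 (h - 1 - M), g t - ∑ t ∈ Icc 1 (min T (P + L - M)), g t| ≤
      ∑ t ∈ Ioc (P - M) (P - M + L), |g t| + ∑ t ∈ Ioc T (P + L), |g t| := by
    rcases le_total (h - 1 - M) (min T (P + L - M)) with hc | hc
    · rw [abs_sub_comm]
      have := diff_le g (X' := P - M) (Y' := P - M + L) hc (by omega) (by
        have := min_le_right T (P + L - M)
        omega)
      linarith
    · rcases le_or_gt T (P + L - M) with hT' | hT'
      · rw [min_eq_left hT'] at hc ⊢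
        have := diff_le g (X' := T) (Y' := P + L) hc le_rfl (by omega)
        linarith
      · rw [min_eq_right hT'.le] at hc ⊢
        have h9 : h - 1 - M = P + L - M := by omega
        rw [h9, sub_self, abs_zero]
        linarith
  have s4 : ∑ t ∈ Ioc (h - 1 - M) (h - 1), g t = ∑ t ∈ Icc 1 (h - 1), g t -
      ∑ t ∈ Icc 1 (h - 1 - M), g t := diff_eq g (by omega)
  rw [s4]
  have s5 : |(if h ≤ M then EB z B c else 0)| ≤ |EB z B c| := by
    split_ifs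
    · exact le_rfl
    · rw [abs_zero]
      exact abs_nonneg _
  have t1 := abs_le.1 s1
  have t2 := abs_le.1 s2
  have t3 := abs_le.1 s3
  have t5 := abs_le.1 s5
  have u1 := abs_le.1 (le_refl |∑ t ∈ Icc 1 (M - (P + L)), f t|)
  have u2 := abs_le.1 (le_refl |∑ t ∈ Icc 1 T, g t|)
  have u3 := abs_le.1 (le_refl |∑ t ∈ Icc 1 (min T (P + L - M)), g t|)
  rw [abs_le]
  constructor
  · linarith [t1.1, t2.1, t3.1, t5.1, u1.1, u2.1, u3.1, t1.2, t2.2, t3.2, t5.2, u1.2, u2.2, u3.2]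
  · linarith [t1.1, t2.1, t3.1, t5.1, u1.1, u2.1, u3.1, t1.2, t2.2, t3.2, t5.2, u1.2, u2.2, u3.2]

/-! ### Small values and the local part -/

theorem card_small (S : Finset ℕ) (B : ℕ) (h : ∀ x ∈ S, ∀ y ∈ S, x ≤ y → (y - x) ^ 2 ≤ B) :
    S.card ≤ Nat.sqrt B + 1 := by
  rcases S.eq_empty_or_nonempty with rfl | hne
  · simp
  · have h1 : S ⊆ Icc (S.min' hne) (S.min' hne + Nat.sqrt B) := by
      intro y hy
      have h2 := S.min'_le y hy
      have h3 := h _ (S.min'_mem hne) y hy h2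
      have h4 : y - S.min' hne ≤ Nat.sqrt B := Nat.le_sqrt'.2 h3
      rw [mem_Icc]
      omega
    refine (Finset.card_le_card h1).trans ?_
    rw [Nat.card_Icc]
    omega

theorem small_part {τ c : ℤ} (hτ : τ = 1 ∨ τ = -1) (z B h M : ℕ) (hB : 1 ≤ B) :
    |∑ m ∈ Icc 1 M, (if 2 ≤ V τ c h m ∧ V τ c h m < B then EE z (V τ c h m) else 0)| ≤
      ((Nat.sqrt B : ℝ) + 1) * (Real.log B + (VW 0 z)⁻¹) := by
  have hB1 : (1 : ℝ) ≤ B := by exact_mod_cast hB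
  rw [← Finset.sum_filter]
  refine (Finset.abs_sum_le_sum_abs _ _).trans ?_
  have hcard : ((Icc 1 M).filter (fun m => 2 ≤ V τ c h m ∧ V τ c h m < B)).card ≤
      Nat.sqrt B + 1 := by
    apply card_small
    intro x hx y hy hxy
    rw [mem_filter] at hx hy
    obtain ⟨k, rfl⟩ := Nat.exists_eq_add_of_le hxy
    rw [Nat.add_sub_cancel_left]
    have h1 := hx.2
    have h2 := hy.2
    unfold V at h1 h2
    have h3 : ((k : ℤ)) ^ 2 ≤ B := by
      have h4 : (0 : ℤ) ≤ k := Int.natCast_nonneg _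
      have h5 : (0 : ℤ) ≤ x := Int.natCast_nonneg _
      push_cast at h1 h2
      rcases hτ with rfl | rfl
      · nlinarith [mul_nonneg h4 h5]
      · nlinarith [mul_nonneg h4 h5]
    exact_mod_cast h3
  calc ∑ m ∈ (Icc 1 M).filter (fun m => 2 ≤ V τ c h m ∧ V τ c h m < B), |EE z (V τ c h m)|
      ≤ ∑ m ∈ (Icc 1 M).filter (fun m => 2 ≤ V τ c h m ∧ V τ c h m < B),
        (Real.log B + (VW 0 z)⁻¹) := by
        refine Finset.sum_le_sum fun m hm => ?_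
        rw [mem_filter] at hm
        apply EE_le _ hB1
        exact_mod_cast hm.2.2.le
    _ = (((Icc 1 M).filter (fun m => 2 ≤ V τ c h m ∧ V τ c h m < B)).card : ℝ) *
        (Real.log B + (VW 0 z)⁻¹) := by
        rw [Finset.sum_const, nsmul_eq_mul]
    _ ≤ ((Nat.sqrt B : ℝ) + 1) * (Real.log B + (VW 0 z)⁻¹) := by
        apply mul_le_mul_of_nonneg_right
        · exact_mod_cast hcard
        · have := Real.log_nonneg hB1
          have := (inv_pos.2 (VW_pos 0 z)).le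
          linarith

theorem filt_up (p : ℕ → Prop) [DecidablePred p] (hp : ∀ m m', m ≤ m' → p m → p m') (M : ℕ) :
    ∃ M1, M1 ≤ M ∧ (Icc 1 M).filter p = Ioc M1 M := by
  induction M with
  | zero => exact ⟨0, le_rfl, by simp⟩
  | succ M ih =>
    obtain ⟨M1, h1, h2⟩ := ih
    by_cases h : p (M + 1)
    · refine ⟨M1, by omega, ?_⟩
      ext m
      have h3 : m ∈ (Icc 1 M).filter p ↔ m ∈ Ioc M1 M := by rw [h2]
      simp only [mem_filter, mem_Icc, mem_Ioc] at h3 ⊢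
      rcases eq_or_ne m (M + 1) with rfl | hne
      · simp [h]
        omega
      · constructor
        · rintro ⟨⟨a, b⟩, c⟩
          have := h3.1 ⟨⟨a, by omega⟩, c⟩
          omega
        · rintro ⟨a, b⟩
          have := h3.2 ⟨a, by omega⟩
          exact ⟨⟨this.1.1, b⟩, this.2⟩
    · refine ⟨M + 1, le_rfl, ?_⟩
      rw [Finset.Ioc_self, Finset.filter_eq_empty_iff]
      intro m hm hpm
      rw [mem_Icc] at hm
      exact h (hp m (M + 1) hm.2 hpm)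

theorem filt_down (p : ℕ → Prop) [DecidablePred p] (hp : ∀ m m', m ≤ m' → p m' → p m) (M : ℕ) :
    ∃ M2, (Icc 1 M).filter p = Ioc 0 M2 := by
  induction M with
  | zero => exact ⟨0, by simp⟩
  | succ M ih =>
    obtain ⟨M2, h2⟩ := ih
    by_cases h : p (M + 1)
    · refine ⟨M + 1, ?_⟩
      ext m
      simp only [mem_filter, mem_Icc, mem_Ioc]
      constructor
      · rintro ⟨⟨a, b⟩, c⟩
        omega
      · rintro ⟨a, b⟩
        exact ⟨⟨by omega, b⟩, hp m (M + 1) b h⟩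
    · refine ⟨M2, ?_⟩
      rw [← h2]
      ext m
      simp only [mem_filter, mem_Icc]
      constructor
      · rintro ⟨⟨a, b⟩, c⟩
        refine ⟨⟨a, ?_⟩, c⟩
        rcases eq_or_ne m (M + 1) with rfl | hne
        · exact absurd c h
        · omega
      · rintro ⟨⟨a, b⟩, c⟩
        exact ⟨⟨a, by omega⟩, c⟩

theorem loc_part {z : ℕ} {C : ℝ} (hC : ∀ (τ c : ℤ) (h M1 M2 : ℕ), M1 ≤ M2 →
    |∑ m ∈ Ioc M1 M2, lz z (V τ c h m) - ((M2 : ℝ) - M1) * Sq τ c h z| ≤ C)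
    {τ : ℤ} (hτ : τ = 1 ∨ τ = -1) (c : ℤ) (h M : ℕ) :
    |∑ m ∈ (Icc 1 M).filter (fun m : ℕ => 2 ≤ V τ c h m), lz z (V τ c h m) -
      Sq τ c h z * (((Icc 1 M).filter (fun m : ℕ => 2 ≤ V τ c h m)).card : ℝ)| ≤ C := by
  obtain ⟨M1, M2, h12, he⟩ : ∃ M1 M2, M1 ≤ M2 ∧
      (Icc 1 M).filter (fun m : ℕ => 2 ≤ V τ c h m) = Ioc M1 M2 := by
    rcases hτ with rfl | rfl
    · obtain ⟨M1, h1, h2⟩ := filt_up (fun m : ℕ => 2 ≤ V 1 c h m) (by
        intro m m' hm h2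
        unfold V at h2 ⊢
        have h3 : (m : ℤ) ^ 2 ≤ (m' : ℤ) ^ 2 := by
          apply pow_le_pow_left₀ (Int.natCast_nonneg _)
          exact_mod_cast hm
        linarith) M
      exact ⟨M1, M, h1, h2⟩
    · obtain ⟨M2, h2⟩ := filt_down (fun m : ℕ => 2 ≤ V (-1) c h m) (by
        intro m m' hm h2
        unfold V at h2 ⊢
        have h3 : (m : ℤ) ^ 2 ≤ (m' : ℤ) ^ 2 := by
          apply pow_le_pow_left₀ (Int.natCast_nonneg _)
          exact_mod_cast hm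
        linarith) M
      exact ⟨0, M2, Nat.zero_le _, h2⟩
  rw [he, Nat.card_Ioc, Nat.cast_sub h12, mul_comm (Sq τ c h z)]
  exact hC τ c h M1 M2 h12

/-- the difference for one `h` -/
theorem D_h {z : ℕ} {C : ℝ} (hC : ∀ (τ c : ℤ) (h M1 M2 : ℕ), M1 ≤ M2 →
    |∑ m ∈ Ioc M1 M2, lz z (V τ c h m) - ((M2 : ℝ) - M1) * Sq τ c h z| ≤ C)
    {τ : ℤ} (hτ : τ = 1 ∨ τ = -1) (c : ℤ) (h M B : ℕ) (hB : 2 ≤ B) :
    |∑ m ∈ Icc 1 M, lp (V τ c h m) -
      Sq τ c h z * (((Icc 1 M).filter (fun m : ℕ => 2 ≤ V τ c h m)).card : ℝ)| ≤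
    |∑ m ∈ Icc 1 M, EB z B (V τ c h m)| +
      (((Nat.sqrt B : ℝ) + 1) * (Real.log B + (VW 0 z)⁻¹) + C) := by
  have h1 := small_part (c := c) hτ z B h M (by omega)
  have h2 := loc_part hC hτ c h M
  have h3 : ∑ m ∈ Icc 1 M, lp (V τ c h m) = ∑ m ∈ Icc 1 M, EB z B (V τ c h m) +
      ∑ m ∈ Icc 1 M, (if 2 ≤ V τ c h m ∧ V τ c h m < B then EE z (V τ c h m) else 0) +
      ∑ m ∈ (Icc 1 M).filter (fun m : ℕ => 2 ≤ V τ c h m), lz z (V τ c h m) := by
    rw [Finset.sum_filter, ← Finset.sum_add_distrib, ← Finset.sum_add_distrib]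
    refine Finset.sum_congr rfl fun m _ => ?_
    unfold EB EE
    have hB' : (2 : ℤ) ≤ B := by exact_mod_cast hB
    by_cases c1 : (B : ℤ) ≤ V τ c h m
    · rw [if_pos c1, if_neg (by omega), if_pos (by omega)]
      ring
    · by_cases c2 : 2 ≤ V τ c h m
      · rw [if_neg c1, if_pos (by omega), if_pos c2]
        ring
      · rw [if_neg c1, if_neg (by omega), if_neg c2, lp_of_lt (by omega)]
        ring
  rw [h3]
  have t1 := abs_le.1 h1
  have t2 := abs_le.1 h2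
  have t3 := abs_le.1 (le_refl |∑ m ∈ Icc 1 M, EB z B (V τ c h m)|)
  rw [abs_le]
  constructor
  · linarith [t1.1, t2.1, t3.1]
  · linarith [t1.2, t2.2, t3.2]

end

end Pool.Agent.N519.QU
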